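import Pool.Agent.H28.MZ.Targets

/-!
# Zeros common to many dilated `L`-functions: exact targets
-/

set_option autoImplicit false

open Complex MeasureTheory Set

namespace Pool.Agent.H47.RU

open Pool.Agent.H23.GLH (PrimChar)
open Pool.Agent.H28.MZ

/-! ### Definitions -/

/-- the mollified function `L(1/2 + r (s - 1/2), ψ)` -/
noncomputable def G (ψ : PrimChar) (b : ℕ → ℝ) (Y : ℕ) (r η : ℝ) (s : ℂ) : ℂ :=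
  ψ.L (wl r 0 s) * Bf ψ b Y (wl r 0 s + 2 * r * η)

/-- the mollified function on the line `Re s = 1/2 - η` -/
noncomputable def gl (ψ : PrimChar) (b : ℕ → ℝ) (Y : ℕ) (r η t : ℝ) : ℂ :=
  ψ.L ((1 / 2 - r * η : ℝ) + (r * t : ℝ) * I) * Bf ψ b Y ((1 / 2 + r * η : ℝ) + (r * t : ℝ) * I)

/-- the coefficient of the pair `(h, l)` -/
noncomputable def qd (χ ψ : PrimChar) (r η : ℝ) (b₁ b₂ : ℕ → ℝ) (h l : ℕ) : ℂ :=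
  ((b₁ h * b₂ l * ((h : ℝ) ^ (-(1 / 2 + η)) * (l : ℝ) ^ (-(1 / 2 + r * η))) : ℝ) : ℂ) *
    co χ h * (starRingEnd ℂ) (co ψ l)

/-- the summand over `k` -/
noncomputable def sd (χ ψ : PrimChar) (r η H M u : ℝ) (h l k : ℕ) : ℂ :=
  (starRingEnd ℂ) (co ψ k) * (((k : ℝ) ^ (-(1 / 2 - r * η)) * V (k / M) : ℝ) : ℂ) *
    Sg χ (1 / 2 - η) H u (((k : ℝ) * l) ^ r / h)

/-- the exponent of the Gaussian windows -/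
noncomputable def ee (ε₀ : ℝ) : ℝ := min (1 / 100) (ε₀ / 32)

/-- the length of the mollifiers, as an exponent -/
noncomputable def tt (ε₀ : ℝ) : ℝ := ee ε₀ / 2

/-! ### Weights -/

/-- (WA) the sum of `gS` over a short range of logarithms. -/
def T_WA : Prop :=
  ∃ C : ℝ, 0 < C ∧ ∀ (q Y h : ℕ) (s : ℝ), 1 < s → 1 ≤ h →
    GS q Y s - GS q (Y / h) s ≤ C * (1 + Real.log h)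

/-- (WT) Selberg's weights are close to the Moebius function. -/
def T_WT : Prop :=
  ∀ q : ℕ, 1 ≤ q → ∃ x₀ : ℝ, 1 ≤ x₀ ∧ ∀ (x₁ κ : ℝ) (H₀ : ℕ), 0 < κ → ∃ Y₀ : ℕ,
    ∀ (s : ℝ) (Y : ℕ), 1 < s → s ≤ 2 → Y₀ ≤ Y → x₀ ≤ (s - 1) * Real.log Y →
      (s - 1) * Real.log Y ≤ x₁ → ∃ b : ℕ → ℝ, Mol q b ∧ zq q s * Qf b Y s ≤ 2 ∧
        ∀ h : ℕ, 1 ≤ h → h ≤ H₀ → Nat.Coprime h q →
          |b h - (ArithmeticFunction.moebius h : ℝ)| ≤ κ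

/-- (SQ) the second moment, uniformly in the dilation. -/
def T_SQ : Prop :=
  ∀ (ψ : PrimChar) (A θ R : ℝ), 1 ≤ A → 0 < θ → θ ≤ 1 / 4 → 1 ≤ R → ∃ C T₀ : ℝ, 0 < C ∧
    ∀ (T r : ℝ) (b : ℕ → ℝ), T₀ ≤ T → 1 / A ≤ r → r ≤ A → Mol ψ.q b →
      zq ψ.q (1 + 2 * (r * (R / Real.log T))) *
        Qf b ⌊T ^ θ⌋₊ (1 + 2 * (r * (R / Real.log T))) ≤ 2 →
      (∫ t in (T / 2)..(3 * T), ‖gl ψ b ⌊T ^ θ⌋₊ r (R / Real.log T) t‖ ^ 2) ≤ C * T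

/-! ### Near coincidences -/

open scoped Classical in
/-- (CT) few integers `K` have a power `K^r` close to an integer, `r > 1` close to `1`. -/
def T_CT : Prop :=
  ∀ ε : ℝ, 0 < ε → ε ≤ 1 / 100 → ∃ C M₀ T₀ : ℝ, 0 < C ∧ 1 ≤ M₀ ∧ ∀ T r M : ℝ, T₀ ≤ T →
    1 + T ^ (-1 + 3 * ε) ≤ r → r ≤ 1 + ε / 4 → M₀ ≤ M → M ≤ T ^ (1 - 3 * ε) →
    (((Finset.Icc 1 ⌊2 * M⌋₊).filter (fun K : ℕ => M < K ∧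
      ∃ n : ℕ, |(K : ℝ) ^ r - n| ≤ T ^ (-1 + 2 * ε) * (K : ℝ) ^ r)).card : ℝ) ≤
        C * M ^ (1 - ε / 16)

/-- (TU) close dilations, the part without need of cancellation. -/
def T_TU : Prop :=
  ∀ ε R κ : ℝ, 0 < ε → ε ≤ 1 / 100 → 1 ≤ R → 0 < κ → ∃ (K₀ : ℕ) (T₀ : ℝ), 1 ≤ K₀ ∧
    ∀ T r η : ℝ, T₀ ≤ T → 1 + T ^ (-1 + 3 * ε) ≤ r → r ≤ 3 / 2 → 0 ≤ η → η ≤ R / Real.log T →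
      (∀ K : ℕ, Summable fun n : ℕ => dv n * (n : ℝ) ^ (-(1 / 2 - η)) *
        Real.exp (-((T ^ (1 - ε)) ^ 2 * (r * Real.log K - Real.log n) ^ 2 / 4))) ∧
      ∑ K ∈ Finset.Icc (K₀ + 1) ⌊(T ^ (2 * r / (1 + r) - 4 * ε)) ^ (1 / r)⌋₊,
        dv K * (K : ℝ) ^ (-(1 / 2 - r * η)) *
          (∑' n : ℕ, if n = 0 then 0 else dv n * (n : ℝ) ^ (-(1 / 2 - η)) *
            Real.exp (-((T ^ (1 - ε)) ^ 2 * (r * Real.log K - Real.log n) ^ 2 / 4))) ≤ κ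

/-- (TR) distant dilations, the smaller one expanded. -/
def T_TR : Prop :=
  ∀ B ε R κ : ℝ, 1 ≤ B → 0 < ε → ε ≤ 1 / 100 → 1 ≤ R → 0 < κ → ∃ (K₀ : ℕ) (T₀ : ℝ), 1 ≤ K₀ ∧
    ∀ T r η : ℝ, T₀ ≤ T → 1 / B ≤ r → r ≤ 1 - 16 * ε → 0 ≤ η → η ≤ R / Real.log T →
      (∀ K : ℕ, Summable fun n : ℕ => dv n * (n : ℝ) ^ (-(1 / 2 - η)) *
        Real.exp (-((T ^ (1 - ε)) ^ 2 * (r * Real.log K - Real.log n) ^ 2 / 4))) ∧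
      ∑ K ∈ Finset.Icc (K₀ + 1) ⌊T ^ (1 + 5 * ε)⌋₊,
        dv K * (K : ℝ) ^ (-(1 / 2 - r * η)) *
          (∑' n : ℕ, if n = 0 then 0 else dv n * (n : ℝ) ^ (-(1 / 2 - η)) *
            Real.exp (-((T ^ (1 - ε)) ^ 2 * (r * Real.log K - Real.log n) ^ 2 / 4))) ≤ κ

/-! ### The cross term -/

/-- (EU) expansion of the cross term, uniformly in the dilation. -/
def T_EU : Prop :=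
  ∀ (χ ψ : PrimChar) (B ε R : ℝ), 1 ≤ B → 0 < ε → ε ≤ 1 / 10 → 1 ≤ R → ∃ T₀ : ℝ,
    ∀ (T u r η : ℝ) (b₁ b₂ : ℕ → ℝ) (Y₁ Y₂ : ℕ), T₀ ≤ T → T ≤ u → u ≤ 2 * T → 1 / B ≤ r →
      r ≤ 3 / 2 → 0 ≤ η → η ≤ R / Real.log T → (∀ h, |b₁ h| ≤ 1) → (∀ h, |b₂ h| ≤ 1) →
      (Y₁ : ℝ) ≤ T → (Y₂ : ℝ) ≤ T →
      (∀ h l : ℕ, 1 ≤ h → h ≤ Y₁ → 1 ≤ l → l ≤ Y₂ →
        Summable fun k : ℕ => ‖sd χ ψ r η (T ^ (1 - ε)) (T ^ (1 + ε)) u h l k‖) ∧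
      ‖Ga (T ^ (1 - ε)) (T / 4) u (fun t : ℝ => gl χ b₁ Y₁ 1 η t *
            (starRingEnd ℂ) (gl ψ b₂ Y₂ r η t)) -
          ∑ h ∈ Finset.Icc 1 Y₁, ∑ l ∈ Finset.Icc 1 Y₂, qd χ ψ r η b₁ b₂ h l *
            ∑' k : ℕ, sd χ ψ r η (T ^ (1 - ε)) (T ^ (1 + ε)) u h l k‖ ≤ 1 / T

/-- (SK) the terms with `k l ≤ K₀`. -/
def T_SK : Prop :=
  ∀ (χ ψ : PrimChar) (B ε R κ : ℝ) (K₀ : ℕ), 1 ≤ B → 0 < ε → ε ≤ 1 / 10 → 1 ≤ R → 0 < κ →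
    1 ≤ K₀ → ∃ κ' T₀ : ℝ, 0 < κ' ∧ ∀ (T u r η : ℝ) (b₁ b₂ : ℕ → ℝ) (Y₁ Y₂ : ℕ), T₀ ≤ T →
      T ≤ u → u ≤ 2 * T → 1 / B ≤ r → r ≤ 3 / 2 → 0 ≤ η → η ≤ R / Real.log T → Mol χ.q b₁ →
      Mol ψ.q b₂ → 1 ≤ Y₁ → (Y₁ : ℝ) ≤ T → K₀ ≤ Y₂ →
      (∀ h : ℕ, 1 ≤ h → h ≤ K₀ → Nat.Coprime h ψ.q →
        |b₂ h - (ArithmeticFunction.moebius h : ℝ)| ≤ κ') →
      ‖(∑ h ∈ Finset.Icc 1 Y₁, ∑ l ∈ Finset.Icc 1 Y₂, qd χ ψ r η b₁ b₂ h l *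
          ∑ k ∈ Finset.Icc 1 K₀ with k * l ≤ K₀,
            sd χ ψ r η (T ^ (1 - ε)) (T ^ (1 + ε)) u h l k) - 1‖ ≤ κ

open scoped Classical in
/-- (KU) the sum over `k` at a fixed frequency, with the dependence on `r`. -/
def T_KU : Prop :=
  ∀ (q : ℕ) (ψ : PrimChar), 1 ≤ q → ∃ C : ℝ, 0 < C ∧
    ∀ (T u r η M Z v : ℝ) (h l μ : ℕ), 1 ≤ T → T ≤ u → u ≤ 2 * T → 1 < r → r < 3 / 2 → 0 ≤ η →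
      η ≤ 1 / 16 → 0 < M → 0 ≤ Z → 1 ≤ h → 1 ≤ l → 1 ≤ μ → |v| ≤ 1 / 10 →
      (∃ B : ℕ, ∀ k : ℕ, μ * (((k : ℝ) * l) ^ r / h) / q ≤ u / Real.pi → k ≤ B) ∧
      ‖∑' k : ℕ, if Z < ((k : ℝ) * l) ^ r ∧ u / (4 * Real.pi) ≤ μ * (((k : ℝ) * l) ^ r / h) / q ∧
          μ * (((k : ℝ) * l) ^ r / h) / q ≤ u / Real.pi then
          (starRingEnd ℂ) (co ψ k) * (((k : ℝ) ^ (-(1 / 2 - r * η)) * V (k / M) *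
            (((k : ℝ) * l) ^ r / h) ^ (1 - (1 / 2 - η)) : ℝ) : ℂ) *
            ei (2 * Real.pi * (μ / q) * (((k : ℝ) * l) ^ r / h) * Real.exp v)
          else 0‖ ≤
        C / Real.sqrt (r - 1) * (T / μ) ^ (1 / 2 + η) *
          ((T * h / μ) ^ (1 / r) / l) ^ (-(1 / 2 - r * η)) *
          (Real.sqrt T + (T * h / μ) ^ (1 / r) / l / Real.sqrt T)

open scoped Classical in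
/-- (NU) close dilations, the part with cancellation. -/
def T_NU : Prop :=
  ∀ (χ ψ : PrimChar) (ε R : ℝ), 0 < ε → ε ≤ 1 / 100 → 1 ≤ R → ∃ T₀ : ℝ,
    ∀ (T u r η : ℝ) (h l : ℕ), T₀ ≤ T → T ≤ u → u ≤ 2 * T → 1 + T ^ (-1 + 20 * ε) ≤ r →
      r * (1 - 16 * ε) ≤ 1 → 0 ≤ η → η ≤ R / Real.log T → 1 ≤ h → 1 ≤ l → (h : ℝ) ≤ T ^ ε →
      (l : ℝ) ≤ T ^ ε →
      ‖∑' k : ℕ, if T ^ (2 * r / (1 + r) - 4 * ε) < ((k : ℝ) * l) ^ r then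
          sd χ ψ r η (T ^ (1 - ε)) (T ^ (1 + ε)) u h l k else 0‖ ≤ T ^ (-(2 * ε))

/-- (CU) the cross term of close dilations. -/
def T_CU : Prop :=
  ∀ (χ ψ : PrimChar) (ε R κ : ℝ), 0 < ε → ε ≤ 1 / 100 → 1 ≤ R → 0 < κ →
    ∃ (κ' T₀ : ℝ) (H₀ : ℕ), 0 < κ' ∧ ∀ (T u r η : ℝ) (b₁ b₂ : ℕ → ℝ) (Y₁ Y₂ : ℕ), T₀ ≤ T →
      T ≤ u → u ≤ 2 * T → 1 + T ^ (-1 + 20 * ε) ≤ r → r * (1 - 16 * ε) ≤ 1 → 0 ≤ η →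
      η ≤ R / Real.log T → Mol χ.q b₁ → Mol ψ.q b₂ → 1 ≤ Y₁ → (Y₁ : ℝ) ≤ T ^ ε → H₀ ≤ Y₂ →
      (Y₂ : ℝ) ≤ T ^ ε →
      (∀ h : ℕ, 1 ≤ h → h ≤ H₀ → Nat.Coprime h ψ.q →
        |b₂ h - (ArithmeticFunction.moebius h : ℝ)| ≤ κ') →
      ‖Ga (T ^ (1 - ε)) (T / 4) u (fun t : ℝ => gl χ b₁ Y₁ 1 η t *
            (starRingEnd ℂ) (gl ψ b₂ Y₂ r η t)) - 1‖ ≤ κ

/-- (CR) the cross term of distant dilations. -/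
def T_CR : Prop :=
  ∀ (χ ψ : PrimChar) (B ε R κ : ℝ), 1 ≤ B → 0 < ε → ε ≤ 1 / 100 → 1 ≤ R → 0 < κ →
    ∃ (κ' T₀ : ℝ) (H₀ : ℕ), 0 < κ' ∧ ∀ (T u r η : ℝ) (b₁ b₂ : ℕ → ℝ) (Y₁ Y₂ : ℕ), T₀ ≤ T →
      T ≤ u → u ≤ 2 * T → 1 / B ≤ r → r ≤ 1 - 16 * ε → 0 ≤ η →
      η ≤ R / Real.log T → Mol χ.q b₁ → Mol ψ.q b₂ → 1 ≤ Y₁ → (Y₁ : ℝ) ≤ T ^ ε → H₀ ≤ Y₂ →
      (Y₂ : ℝ) ≤ T ^ ε →
      (∀ h : ℕ, 1 ≤ h → h ≤ H₀ → Nat.Coprime h ψ.q →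
        |b₂ h - (ArithmeticFunction.moebius h : ℝ)| ≤ κ') →
      ‖Ga (T ^ (1 - ε)) (T / 4) u (fun t : ℝ => gl χ b₁ Y₁ 1 η t *
            (starRingEnd ℂ) (gl ψ b₂ Y₂ r η t)) - 1‖ ≤ κ

/-- (CG) the cross term of two dilations. -/
def T_CG : Prop :=
  ∀ (S : Set PrimChar) (A ε₀ R κ : ℝ), S.Finite → 1 ≤ A → 0 < ε₀ → 1 ≤ R → 0 < κ →
    ∃ (κ' T₀ : ℝ) (H₀ : ℕ), 0 < κ' ∧ ∀ (T r₁ r₂ : ℝ) (ψ₁ ψ₂ : PrimChar) (b₁ b₂ : ℕ → ℝ), T₀ ≤ T →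
      ψ₁ ∈ S → ψ₂ ∈ S → 1 / A ≤ r₁ → r₁ ≤ A → 1 / A ≤ r₂ → r₂ ≤ A →
      T ^ (-1 + ε₀) ≤ |r₁ - r₂| → Mol ψ₁.q b₁ → Mol ψ₂.q b₂ →
      (∀ h : ℕ, 1 ≤ h → h ≤ H₀ → Nat.Coprime h ψ₁.q →
        |b₁ h - (ArithmeticFunction.moebius h : ℝ)| ≤ κ') →
      (∀ h : ℕ, 1 ≤ h → h ≤ H₀ → Nat.Coprime h ψ₂.q →
        |b₂ h - (ArithmeticFunction.moebius h : ℝ)| ≤ κ') →
      ∃ H : ℝ, 0 < H ∧ H ≤ T ^ (1 - tt ε₀) ∧ ∀ u : ℝ, T ≤ u → u ≤ 2 * T →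
        ‖Ga H (T / 4) u (fun t : ℝ => gl ψ₁ b₁ ⌊T ^ tt ε₀⌋₊ r₁ (R / Real.log T) t *
            (starRingEnd ℂ) (gl ψ₂ b₂ ⌊T ^ tt ε₀⌋₊ r₂ (R / Real.log T) t)) - 1‖ ≤ κ

/-! ### The average of the dilated functions -/

/-- the average of the dilated functions -/
noncomputable def Uf (n : ℕ) (ψ : Fin n → PrimChar) (b : Fin n → ℕ → ℝ) (Y : ℕ) (r : Fin n → ℝ)
    (η : ℝ) (s : ℂ) : ℂ :=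
  (1 / (n : ℂ)) * ∑ i, G (ψ i) (b i) Y (r i) η s

/-- (IV) the mean square of the average. -/
def T_IV : Prop :=
  ∀ (S : Set PrimChar) (A ε₀ : ℝ), S.Finite → 1 ≤ A → 0 < ε₀ → ∃ R C : ℝ, 1 ≤ R ∧ 0 < C ∧
    ∀ (n : ℕ) (κ : ℝ), 1 ≤ n → 0 < κ → ∃ T₀ : ℝ, ∀ (T : ℝ) (r : Fin n → ℝ) (ψ : Fin n → PrimChar),
      T₀ ≤ T → (∀ i, ψ i ∈ S ∧ 1 / A ≤ r i ∧ r i ≤ A) →
      (∀ i j, i ≠ j → T ^ (-1 + ε₀) ≤ |r i - r j|) →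
      ∃ b : Fin n → ℕ → ℝ, (∀ i, Mol (ψ i).q (b i)) ∧
        (∫ t in T..(2 * T), sn T t *
          ‖Uf n ψ b ⌊T ^ tt ε₀⌋₊ r (R / Real.log T) ((1 / 2 - R / Real.log T : ℝ) + t * I)‖ ^ 2) ≤
            2 * T / Real.pi * (1 + C / n + κ)

/-- (UH) growth, orders and the right side. -/
def T_UH : Prop :=
  ∀ (S : Set PrimChar) (A : ℝ), S.Finite → 1 ≤ A → ∃ C T₀ : ℝ, 0 < C ∧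
    ∀ (T η : ℝ) (n Y : ℕ) (r : Fin n → ℝ) (ψ : Fin n → PrimChar) (b : Fin n → ℕ → ℝ), T₀ ≤ T →
      0 ≤ η → η ≤ 1 → 1 ≤ n → 1 ≤ Y → (Y : ℝ) ≤ T → (∀ i, ψ i ∈ S ∧ 1 / A ≤ r i ∧ r i ≤ A) →
      (∀ i, Mol (ψ i).q (b i)) →
      (∀ s : ℂ, T / 2 < s.im → DifferentiableAt ℂ (Uf n ψ b Y r η) s) ∧
      (∀ s : ℂ, -1 ≤ s.re → T ≤ s.im → s.im ≤ 2 * T → ‖Uf n ψ b Y r η s‖ ≤ T ^ C) ∧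
      (∀ (s : ℂ) (m : ℕ), T / 2 < s.im →
        (∀ i, (m : ℕ∞) ≤ analyticOrderAt (ψ i).L (wl (r i) 0 s)) →
          (m : ℕ∞) ≤ analyticOrderAt (Uf n ψ b Y r η) s) ∧
      ∀ s : ℂ, 4 * A ≤ s.re → ‖Uf n ψ b Y r η s - 1‖ ≤ C * (2 : ℝ) ^ (-(s.re / (2 * A)))

/-- (FJ) few common zeros, with the sine weight. -/
def T_FJ : Prop :=
  ∀ (S : Set PrimChar) (A ε₀ : ℝ), S.Finite → 1 ≤ A → 0 < ε₀ → ∃ C : ℝ, 0 < C ∧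
    ∀ n : ℕ, 1 ≤ n → ∃ T₀ : ℝ, ∀ (T : ℝ) (r : Fin n → ℝ) (ψ : Fin n → PrimChar), T₀ ≤ T →
      (∀ i, ψ i ∈ S ∧ 1 / A ≤ r i ∧ r i ≤ A) →
      (∀ i j, i ≠ j → T ^ (-1 + ε₀) ≤ |r i - r j|) →
      ∀ (Z : Finset ℂ) (m : ℂ → ℕ), (∀ ρ ∈ Z, T < ρ.im ∧ ρ.im < 2 * T ∧ 0 < ρ.re ∧ ρ.re < 1 ∧
        ∀ i, (m ρ : ℕ∞) ≤ analyticOrderAt (ψ i).L (wl (r i) 0 ρ)) →
      ∑ ρ ∈ Z, (m ρ : ℝ) * sn T ρ.im ≤ C / n * (T * Real.log T)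

/-- (FK) few common zeros. -/
def T_FK : Prop :=
  ∀ (S : Set PrimChar) (A ε : ℝ), S.Finite → 1 ≤ A → 0 < ε → ∃ C : ℝ, 0 < C ∧
    ∀ n : ℕ, 1 ≤ n → ∃ T₀ : ℝ, ∀ (T : ℝ) (r : Fin n → ℝ) (ψ : Fin n → PrimChar), T₀ ≤ T →
      (∀ i, ψ i ∈ S ∧ 1 / A ≤ r i ∧ r i ≤ A) →
      (∀ i j, i ≠ j → T ^ (-1 + ε) ≤ |r i - r j|) →
      ∀ (Z : Finset ℂ) (m : ℂ → ℕ), (∀ ρ ∈ Z, T < ρ.im ∧ ρ.im < 2 * T ∧ 0 < ρ.re ∧ ρ.re < 1 ∧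
        ∀ i, (m ρ : ℕ∞) ≤ analyticOrderAt (ψ i).L (1 / 2 + r i * (ρ - 1 / 2))) →
      ∑ ρ ∈ Z, (m ρ : ℝ) ≤ C / n * (T * Real.log T)

open scoped Classical in
/-- (FD) all but few zeros violate a positive proportion of the relations. -/
def T_FD : Prop :=
  ∀ (S : Set PrimChar) (A ε ε₁ : ℝ), S.Finite → 1 ≤ A → 0 < ε → 0 < ε₁ →
    ∃ (δ T₀ : ℝ) (N₀ : ℕ), 0 < δ ∧ ∀ (T : ℝ) (E : Finset ℝ) (ψ : ℝ → PrimChar), T₀ ≤ T →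
      (∀ r ∈ E, 1 / A ≤ r ∧ r ≤ A ∧ ψ r ∈ S) →
      (∀ r ∈ E, ∀ r' ∈ E, r ≠ r' → T ^ (-1 + ε) ≤ |r - r'|) → N₀ ≤ E.card →
      ∀ (Z : Finset ℂ) (m : ℂ → ℕ), (∀ ρ ∈ Z, T < ρ.im ∧ ρ.im < 2 * T ∧ 0 < ρ.re ∧ ρ.re < 1 ∧
        (1 - δ) * (E.card : ℝ) ≤ ((E.filter (fun r =>
          (m ρ : ℕ∞) ≤ analyticOrderAt (ψ r).L (1 / 2 + r * (ρ - 1 / 2)))).card : ℝ)) →
      ∑ ρ ∈ Z, (m ρ : ℝ) ≤ ε₁ * (T * Real.log T)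

/-- (LI) all but boundedly many rational relations fail for a positive proportion of the zeros. -/
def T_LI : Prop :=
  ∀ (χ : PrimChar) (S : Set PrimChar) (A ε : ℝ), S.Finite → 1 ≤ A → 0 < ε → ε ≤ 1 / 2 →
    ∃ (J : ℕ) (c T₀ : ℝ), 0 < c ∧ ∀ T : ℝ, T₀ ≤ T → ∀ (E : Finset ℚ) (ψ : ℚ → PrimChar),
      (∀ a ∈ E, 1 / A ≤ (a : ℝ) ∧ (a : ℝ) ≤ A ∧ (a.den : ℝ) ≤ T ^ (1 / 2 - ε) ∧ ψ a ∈ S) →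
      J ≤ E.card → ∃ a ∈ E, ∃ Z : Finset ℂ,
        (∀ ρ ∈ Z, T < ρ.im ∧ ρ.im < 2 * T ∧ 0 < ρ.re ∧ ρ.re < 1 ∧ χ.L ρ = 0 ∧
          analyticOrderAt (ψ a).L (1 / 2 + (a : ℝ) * (ρ - 1 / 2)) < analyticOrderAt χ.L ρ) ∧
        c * (T * Real.log T) ≤ ∑ ρ ∈ Z, (analyticOrderNatAt χ.L ρ : ℝ)

end Pool.Agent.H47.RU
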