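import Pool.Agent.H28.PZ.All
import Pool.Agent.H47.RU.FE
import Pool.Agent.H11.RU.FK
import Pool.Agent.H11.RU.NU
import Pool.Agent.H11.RU.WA
import Pool.Agent.H11.RU.WT
import Pool.Agent.H32.RU.KU
import Pool.Agent.H39.RU.CG
import Pool.Agent.H39.RU.CT
import Pool.Agent.H39.RU.EU
import Pool.Agent.H39.RU.SQ
import Pool.Agent.H48.RU.CR
import Pool.Agent.H48.RU.CU
import Pool.Agent.H49.RU.SK
import Pool.Agent.H63.RU.TR
import Pool.Agent.H63.RU.TU
import Pool.Agent.H63.RU.UH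
import Pool.Agent.H74.RU.FJ
import Pool.Agent.H74.RU.IV
import Pool.Agent.H74.RU.LI

/-!
# Zeros common to many dilated `L`-functions: assembly
-/

set_option autoImplicit false

namespace Pool.Agent.H47.RU.All

open Pool.Agent.H28.MZ Pool.Agent.H47.RU
open Pool.Agent.H28.PZ.All

theorem wa : T_WA := Pool.Agent.H11.RU.pf_WA
theorem wt : T_WT := Pool.Agent.H11.RU.pf_WT wa qr zq
theorem sq : T_SQ := Pool.Agent.H39.RU.pf_SQ xa mm ub
theorem ct : T_CT := Pool.Agent.H39.RU.pf_CT vs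
theorem tu : T_TU := Pool.Agent.H63.RU.pf_TU ct
theorem tr : T_TR := Pool.Agent.H63.RU.pf_TR
theorem eu : T_EU := Pool.Agent.H39.RU.pf_EU sm Pool.Agent.H28.PZ.All.gl vv
theorem sk : T_SK := Pool.Agent.H49.RU.pf_SK vv
theorem ku : T_KU := Pool.Agent.H32.RU.pf_KU vs vv
theorem nu : T_NU := Pool.Agent.H11.RU.pf_NU po ku vv
theorem cu : T_CU := Pool.Agent.H48.RU.pf_CU eu tu sk nu vv
theorem cr : T_CR := Pool.Agent.H48.RU.pf_CR eu tr sk vv
theorem cg : T_CG := Pool.Agent.H39.RU.pf_CG cu cr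
theorem iv : T_IV := Pool.Agent.H74.RU.IV.pf_IV wt sq cg cv
theorem uh : T_UH := Pool.Agent.H63.RU.pf_UH
theorem fj : T_FJ := Pool.Agent.H74.RU.FJ.pf_FJ iv uh ji or'
theorem fk : T_FK := Pool.Agent.H11.RU.pf_FK fj
theorem fe : T_FE := pf_FE fk
theorem li : T_LI := Pool.Agent.H74.RU.pf_LI fj nl or'

end Pool.Agent.H47.RU.All
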