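import Pool.Agent.H47.RU.All
import Pool.Agent.H47.RU.FL

/-!
# Zeros common to many dilated `L`-functions: assembly, with the dependence on the range
-/

set_option autoImplicit false

namespace Pool.Agent.H47.RU.All

open Pool.Agent.H47.RU

theorem fs : T_FS := pf_FS fk
theorem fb : T_FB := pf_FB fs
theorem fl : T_FL := pf_FL fs fb

end Pool.Agent.H47.RU.All
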